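import Pool.Agent.H83.PT6.Seven

/-!
# Primitive Pythagorean triangles with a common area and few prime factors

If `A` has at most five distinct prime factors, then at most one primitive Pythagorean triangle
has area `A`, with the exceptions `A = 210, 2730, 7980`, each the area of exactly two. If `A` has
at most six distinct prime factors, then at most two such triangles have area `A`.
-/

namespace Pool.Agent.Results.MP_912b3a_nt.FewPrimes

open Pool.Agent.H83.PT

/-- The primitive Pythagorean triangles of area `A`, as the set of their generator pairs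
`(m, n)`: `m > n > 0`, coprime, of opposite parity, with `m n (m² - n²) = A`. -/
def Triangles (A : ℕ) : Set (ℕ × ℕ) :=
  {t | 0 < t.2 ∧ t.2 < t.1 ∧ t.1.Coprime t.2 ∧ t.1 % 2 ≠ t.2 % 2 ∧
    t.1 * t.2 * (t.1 ^ 2 - t.2 ^ 2) = A}

lemma tri_of {A m n : ℕ} (h : (m, n) ∈ Triangles A) : Tri (m - n) n ∧ ar (m - n) n = A := by
  obtain ⟨h1, h2, h3, h4, h5⟩ := h
  simp only at h1 h2 h3 h4 h5
  have hm : m = (m - n) + n := by omega
  refine ⟨⟨by omega, h1, by omega, ?_⟩, ?_⟩
  · rw [hm] at h3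
    simpa using h3
  · obtain ⟨k, hk⟩ : ∃ k, m = k + n := ⟨m - n, hm⟩
    subst hk
    have h6 : k + n - n = k := by omega
    rw [h6, ← h5]
    have h7 : (k + n) ^ 2 - n ^ 2 = k * (k + 2 * n) := by
      have : (k + n) ^ 2 = k * (k + 2 * n) + n ^ 2 := by ring
      omega
    rw [h7]
    unfold ar
    ring

lemma two_of {A : ℕ} {s t : ℕ × ℕ} (hs : s ∈ Triangles A) (ht : t ∈ Triangles A) (hne : s ≠ t)
    (h5 : A.primeFactors.card ≤ 5) : A = 210 ∨ A = 2730 ∨ A = 7980 := by
  obtain ⟨m, n⟩ := s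
  obtain ⟨m', n'⟩ := t
  obtain ⟨t1, e1⟩ := tri_of hs
  obtain ⟨t2, e2⟩ := tri_of ht
  have hl := hs.2.1
  have hl' := ht.2.1
  simp only at hl hl'
  have hne2 : (m - n, n) ≠ (m' - n', n') := by
    intro h
    apply hne
    simp only [Prod.mk.injEq] at h ⊢
    omega
  have := pair t1 t2 (by rw [e1, e2]) hne2 (by rw [e1]; exact h5)
  rw [e1] at this
  exact this

lemma three_of {A : ℕ} {p q r : ℕ × ℕ} (hp : p ∈ Triangles A) (hq : q ∈ Triangles A)
    (hr : r ∈ Triangles A) (hpq : p ≠ q) (hpr : p ≠ r) (hqr : q ≠ r)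
    (h6 : A.primeFactors.card ≤ 6) : Small A := by
  obtain ⟨m1, n1⟩ := p
  obtain ⟨m2, n2⟩ := q
  obtain ⟨m3, n3⟩ := r
  obtain ⟨t1, e1⟩ := tri_of hp
  obtain ⟨t2, e2⟩ := tri_of hq
  obtain ⟨t3, e3⟩ := tri_of hr
  have l1 := hp.2.1
  have l2 := hq.2.1
  have l3 := hr.2.1
  simp only at l1 l2 l3
  have g12 : (m1 - n1, n1) ≠ (m2 - n2, n2) := by
    intro h
    apply hpq
    simp only [Prod.mk.injEq] at h ⊢
    omega
  have g13 : (m1 - n1, n1) ≠ (m3 - n3, n3) := by
    intro h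
    apply hpr
    simp only [Prod.mk.injEq] at h ⊢
    omega
  have g23 : (m2 - n2, n2) ≠ (m3 - n3, n3) := by
    intro h
    apply hqr
    simp only [Prod.mk.injEq] at h ⊢
    omega
  have := three t1 t2 t3 (by rw [e1, e2]) (by rw [e2, e3]) g12 g13 g23 (by rw [e3]; exact h6)
  rw [e3] at this
  exact this

/-- bound for the generators -/
lemma bound {A m n : ℕ} (h : (m, n) ∈ Triangles A) : (m - 1) * m * (m + 1) ≤ A := by
  obtain ⟨h1, h2, h3, h4, h5⟩ := h
  simp only at h1 h2 h3 h4 h5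
  obtain ⟨j, hj⟩ : ∃ j, n = j + 1 := ⟨n - 1, by omega⟩
  obtain ⟨k, hk⟩ : ∃ k, m = k + 1 + n := ⟨m - n - 1, by omega⟩
  have h7 : m ^ 2 - n ^ 2 = (k + 1) * (m + n) := by
    have : m ^ 2 = (k + 1) * (m + n) + n ^ 2 := by rw [hk]; ring
    omega
  rw [h7] at h5
  have h8 : m - 1 ≤ n * (k + 1) := by
    have : n * (k + 1) = j * k + (m - 1) := by
      have h9 : m - 1 = k + (j + 1) := by omega
      rw [h9, hj]
      ring
    omega
  calc (m - 1) * m * (m + 1) ≤ n * (k + 1) * m * (m + n) :=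
        Nat.mul_le_mul (Nat.mul_le_mul_right m h8) (by omega)
    _ = m * n * ((k + 1) * (m + n)) := by ring
    _ = A := h5

lemma bound' {A m n M : ℕ} (h : (m, n) ∈ Triangles A) (hM : A < M * (M + 1) * (M + 2)) :
    m < M + 1 := by
  have h1 := bound h
  by_contra hc
  have h2 : M ≤ m - 1 := by omega
  have h3 : M + 1 ≤ m := by omega
  have h4 : M * (M + 1) * (M + 2) ≤ (m - 1) * m * (m + 1) :=
    Nat.mul_le_mul (Nat.mul_le_mul h2 h3) (by omega)
  omega

lemma fin1 : ∀ m ∈ Finset.range 7, ∀ n ∈ Finset.range m, m * n * (m ^ 2 - n ^ 2) = 210 →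
    m % 2 ≠ n % 2 → (m = 5 ∧ n = 2) ∨ (m = 6 ∧ n = 1) := by decide +kernel

lemma tri210 : Triangles 210 = {(5, 2), (6, 1)} := by
  ext ⟨m, n⟩
  constructor
  · intro h
    have hm : m < 7 := bound' h (by norm_num)
    obtain ⟨h1, h2, h3, h4, h5⟩ := h
    rcases fin1 m (Finset.mem_range.2 hm) n (Finset.mem_range.2 h2) h5 h4 with
      ⟨rfl, rfl⟩ | ⟨rfl, rfl⟩ <;> simp
  · intro h
    simp only [Set.mem_insert_iff, Set.mem_singleton_iff, Prod.mk.injEq] at h
    rcases h with ⟨rfl, rfl⟩ | ⟨rfl, rfl⟩ <;>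
      exact ⟨by norm_num, by norm_num, by norm_num, by norm_num, by norm_num⟩

lemma fin2 : ∀ m ∈ Finset.range 15, ∀ n ∈ Finset.range m, m * n * (m ^ 2 - n ^ 2) = 2730 →
    m % 2 ≠ n % 2 → (m = 10 ∧ n = 3) ∨ (m = 14 ∧ n = 1) := by decide +kernel

lemma tri2730 : Triangles 2730 = {(10, 3), (14, 1)} := by
  ext ⟨m, n⟩
  constructor
  · intro h
    have hm : m < 15 := bound' h (by norm_num)
    obtain ⟨h1, h2, h3, h4, h5⟩ := h
    rcases fin2 m (Finset.mem_range.2 hm) n (Finset.mem_range.2 h2) h5 h4 with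
      ⟨rfl, rfl⟩ | ⟨rfl, rfl⟩ <;> simp
  · intro h
    simp only [Set.mem_insert_iff, Set.mem_singleton_iff, Prod.mk.injEq] at h
    rcases h with ⟨rfl, rfl⟩ | ⟨rfl, rfl⟩ <;>
      exact ⟨by norm_num, by norm_num, by norm_num, by norm_num, by norm_num⟩

lemma fin3 : ∀ m ∈ Finset.range 21, ∀ n ∈ Finset.range m, m * n * (m ^ 2 - n ^ 2) = 7980 →
    m % 2 ≠ n % 2 → (m = 12 ∧ n = 7) ∨ (m = 20 ∧ n = 1) := by decide +kernel

lemma tri7980 : Triangles 7980 = {(12, 7), (20, 1)} := by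
  ext ⟨m, n⟩
  constructor
  · intro h
    have hm : m < 21 := bound' h (by norm_num)
    obtain ⟨h1, h2, h3, h4, h5⟩ := h
    rcases fin3 m (Finset.mem_range.2 hm) n (Finset.mem_range.2 h2) h5 h4 with
      ⟨rfl, rfl⟩ | ⟨rfl, rfl⟩ <;> simp
  · intro h
    simp only [Set.mem_insert_iff, Set.mem_singleton_iff, Prod.mk.injEq] at h
    rcases h with ⟨rfl, rfl⟩ | ⟨rfl, rfl⟩ <;>
      exact ⟨by norm_num, by norm_num, by norm_num, by norm_num, by norm_num⟩

lemma fin4 : ∀ m ∈ Finset.range 42, ∀ n ∈ Finset.range m, m * n * (m ^ 2 - n ^ 2) = 71610 →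
    m % 2 ≠ n % 2 → (m = 21 ∧ n = 10) ∨ (m = 33 ∧ n = 2) := by decide +kernel

lemma tri71610 : Triangles 71610 = {(21, 10), (33, 2)} := by
  ext ⟨m, n⟩
  constructor
  · intro h
    have hm : m < 42 := bound' h (by norm_num)
    obtain ⟨h1, h2, h3, h4, h5⟩ := h
    rcases fin4 m (Finset.mem_range.2 hm) n (Finset.mem_range.2 h2) h5 h4 with
      ⟨rfl, rfl⟩ | ⟨rfl, rfl⟩ <;> simp
  · intro h
    simp only [Set.mem_insert_iff, Set.mem_singleton_iff, Prod.mk.injEq] at h
    rcases h with ⟨rfl, rfl⟩ | ⟨rfl, rfl⟩ <;>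
      exact ⟨by norm_num, by norm_num, by norm_num, by norm_num, by norm_num⟩

lemma fin5 : ∀ m ∈ Finset.range 48, ∀ n ∈ Finset.range m, m * n * (m ^ 2 - n ^ 2) = 106260 →
    m % 2 ≠ n % 2 → (m = 23 ∧ n = 12) ∨ (m = 28 ∧ n = 5) := by decide +kernel

lemma tri106260 : Triangles 106260 = {(23, 12), (28, 5)} := by
  ext ⟨m, n⟩
  constructor
  · intro h
    have hm : m < 48 := bound' h (by norm_num)
    obtain ⟨h1, h2, h3, h4, h5⟩ := h
    rcases fin5 m (Finset.mem_range.2 hm) n (Finset.mem_range.2 h2) h5 h4 with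
      ⟨rfl, rfl⟩ | ⟨rfl, rfl⟩ <;> simp
  · intro h
    simp only [Set.mem_insert_iff, Set.mem_singleton_iff, Prod.mk.injEq] at h
    rcases h with ⟨rfl, rfl⟩ | ⟨rfl, rfl⟩ <;>
      exact ⟨by norm_num, by norm_num, by norm_num, by norm_num, by norm_num⟩

lemma fin6 : ∀ m ∈ Finset.range 80, ∀ n ∈ Finset.range m, m * n * (m ^ 2 - n ^ 2) = 499590 →
    m % 2 ≠ n % 2 → (m = 35 ∧ n = 26) ∨ (m = 63 ∧ n = 2) := by decide +kernel

lemma tri499590 : Triangles 499590 = {(35, 26), (63, 2)} := by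
  ext ⟨m, n⟩
  constructor
  · intro h
    have hm : m < 80 := bound' h (by norm_num)
    obtain ⟨h1, h2, h3, h4, h5⟩ := h
    rcases fin6 m (Finset.mem_range.2 hm) n (Finset.mem_range.2 h2) h5 h4 with
      ⟨rfl, rfl⟩ | ⟨rfl, rfl⟩ <;> simp
  · intro h
    simp only [Set.mem_insert_iff, Set.mem_singleton_iff, Prod.mk.injEq] at h
    rcases h with ⟨rfl, rfl⟩ | ⟨rfl, rfl⟩ <;>
      exact ⟨by norm_num, by norm_num, by norm_num, by norm_num, by norm_num⟩

/-- **Few primes.** If `A` has at most five distinct prime factors and is not `210`, `2730` or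
`7980`, then at most one primitive Pythagorean triangle has area `A`; these three `A` are the areas
of exactly two. Three primitive Pythagorean triangles of area `A` exist only if `A` has at least
seven distinct prime factors. -/
theorem result (A : ℕ) :
    (A.primeFactors.card ≤ 5 → ¬ (A = 210 ∨ A = 2730 ∨ A = 7980) → (Triangles A).encard ≤ 1) ∧
      ((A = 210 ∨ A = 2730 ∨ A = 7980) → (Triangles A).encard = 2) ∧
      (3 ≤ (Triangles A).encard → 7 ≤ A.primeFactors.card) := by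
  have key1 : A.primeFactors.card ≤ 5 → ¬ (A = 210 ∨ A = 2730 ∨ A = 7980) →
      (Triangles A).encard ≤ 1 := by
    intro hA hn
    rw [Set.encard_le_one_iff]
    intro s t hs ht
    by_contra hne
    exact hn (two_of hs ht hne hA)
  have key2 : (A = 210 ∨ A = 2730 ∨ A = 7980) → (Triangles A).encard = 2 := by
    rintro (rfl | rfl | rfl)
    · rw [tri210]
      exact Set.encard_pair (by simp)
    · rw [tri2730]
      exact Set.encard_pair (by simp)
    · rw [tri7980]
      exact Set.encard_pair (by simp)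
  refine ⟨key1, key2, fun h3 => ?_⟩
  by_contra hlt
  have hsm : Small A := by
    obtain ⟨W, hW, hc⟩ := Set.exists_subset_encard_eq h3
    obtain ⟨p, q, r, hpq, hpr, hqr, rfl⟩ := Set.encard_eq_three.mp hc
    exact three_of (hW (by simp)) (hW (by simp)) (hW (by simp)) hpq hpr hqr (by omega)
  have h2 : (Triangles A).encard ≤ 2 := by
    rcases hsm with rfl | rfl | rfl | rfl | rfl | rfl
    · exact (key2 (by simp)).le
    · exact (key2 (by simp)).le
    · exact (key2 (by simp)).le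
    · rw [tri71610]; exact (Set.encard_pair (by simp)).le
    · rw [tri106260]; exact (Set.encard_pair (by simp)).le
    · rw [tri499590]; exact (Set.encard_pair (by simp)).le
  exact absurd (h3.trans h2) (by norm_num)

end Pool.Agent.Results.MP_912b3a_nt.FewPrimes
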