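import Pool.Agent.H83.LP.Main

/-!
# Primitive Pythagorean triangles whose common area has a large prime power

If a prime power `q ≥ A ^ (1/4 + ε)` exactly divides `A`, then the number of primitive Pythagorean
triangles of area `A` is bounded by a constant which depends on `ε` only.
-/

namespace Pool.Agent.Results.MP_912b3a_nt.LargePrime

/-- The primitive Pythagorean triangles of area `A`, as the set of their generator pairs
`(m, n)`: `m > n > 0`, coprime, of opposite parity, with `m n (m² - n²) = A`. -/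
def Triangles (A : ℕ) : Set (ℕ × ℕ) :=
  {v | 0 < v.2 ∧ v.2 < v.1 ∧ Nat.Coprime v.1 v.2 ∧ ¬ v.1 ≡ v.2 [MOD 2] ∧
    v.1 * v.2 * (v.1 ^ 2 - v.2 ^ 2) = A}

/-- Let `ε > 0`.

1. Let `A ≥ exp (100 / ε)`, let `g` be a divisor of `A` with `gcd (g, A / g) = 1`, and let
`log g + (∑ (log q)²)^(1/2) ≥ (1/2 + ε) log A`, the sum over the prime powers `q` which exactly
divide `g`. Then the number of primitive Pythagorean triangles of area `A` is finite and at most
`(4000 / ε²) 4 ^ ω(g)`.

2. There is a constant `C` which bounds the number of primitive Pythagorean triangles of area `A`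
for every `A` with a prime power `q ≥ A ^ (1/4 + ε)` which exactly divides `A`. -/
theorem result (ε : ℝ) (hε : 0 < ε) :
    (∀ A g : ℕ, Real.exp (100 / ε) ≤ A → g ∣ A → Nat.Coprime g (A / g) →
      (1 / 2 + ε) * Real.log A ≤ Real.log g +
        Real.sqrt (∑ p ∈ g.primeFactors, Real.log ((p : ℝ) ^ g.factorization p) ^ 2) →
      ∃ N : ℕ, (Triangles A).encard = N ∧
        (N : ℝ) ≤ 4000 / ε ^ 2 * 4 ^ g.primeFactors.card) ∧
    ∃ C : ℕ, ∀ A q : ℕ, 0 < A → IsPrimePow q → q ∣ A → Nat.Coprime q (A / q) →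
      (A : ℝ) ^ (1 / 4 + ε) ≤ q → (Triangles A).encard ≤ C := by
  have hN : ∀ A : ℕ, (Triangles A).encard = ((Triangles A).ncard : ℕ∞) := fun A =>
    (Set.Finite.cast_ncard_eq (Pool.Agent.H99.PT.gen_finite A)).symm
  constructor
  · intro A g hA hg hc h
    exact ⟨(Triangles A).ncard, hN A, Pool.Agent.H83.LP.main_lp A g ε hε hA hg hc h⟩
  · obtain ⟨C, hC⟩ := Pool.Agent.H83.LP.prime_power ε hε
    refine ⟨C, ?_⟩
    intro A q hA hq hqA hc hqq
    rw [hN A]
    exact_mod_cast hC A q hA hq hqA hc hqq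

end Pool.Agent.Results.MP_912b3a_nt.LargePrime
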