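import Pool.Agent.H83.MR.Main

/-!
# The number of primitive Pythagorean triangles of area `A` in terms of `ω(A)`

The number of primitive Pythagorean triangles of area `A` is `O(1.38 ^ ω(A))`, where `ω(A)` is the
number of primes dividing `A`.
-/

namespace Pool.Agent.Results.MP_912b3a_nt.OmegaBound

/-- The primitive Pythagorean triangles of area `A`, as the set of their generator pairs
`(m, n)`: `m > n > 0`, coprime, of opposite parity, with `m n (m² - n²) = A`. -/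
def Triangles (A : ℕ) : Set (ℕ × ℕ) :=
  {v | 0 < v.2 ∧ v.2 < v.1 ∧ Nat.Coprime v.1 v.2 ∧ ¬ v.1 ≡ v.2 [MOD 2] ∧
    v.1 * v.2 * (v.1 ^ 2 - v.2 ^ 2) = A}

/-- 1. Let `γ ≤ 1/3` and `0 < x < 1` with `6 x (1 + x) (1 - γ) > (1 - 3 γ) (1 + 3 x²)`, and let
`κ > (1 + 3 x²) x ^ (-6 x² / (1 + 3 x²))`. Then there is a `C` such that for every `A ≥ 1` and
every divisor `g ≥ A ^ γ` of `A` with `gcd (g, A / g) = 1` the number of primitive Pythagorean
triangles of area `A` is finite and at most `C 4 ^ ω(g) κ ^ ω(A / g)`.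

2. Let `γ > 1/3`. Then for every `A` and every divisor `g ≥ A ^ γ` of `A` with `gcd (g, A / g) = 1`
the number of primitive Pythagorean triangles of area `A` is finite and at most
`7 / (γ - 1/3)² 4 ^ ω(g)`.

3. There is a `C` such that for every `A ≥ 1` the number of primitive Pythagorean triangles of area
`A` is finite and at most `C 1.38 ^ ω(A)`. -/
theorem result :
    (∀ γ x κ : ℝ, γ ≤ 1 / 3 → 0 < x → x < 1 →
      (1 - 3 * γ) * (1 + 3 * x ^ 2) < 6 * x * (1 + x) * (1 - γ) →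
      (1 + 3 * x ^ 2) * x ^ (-(6 * x ^ 2 / (1 + 3 * x ^ 2))) < κ →
      ∃ C : ℝ, ∀ A g : ℕ, 0 < A → g ∣ A → Nat.Coprime g (A / g) → (A : ℝ) ^ γ ≤ g →
        ∃ N : ℕ, (Triangles A).encard = N ∧
          (N : ℝ) ≤ C * 4 ^ g.primeFactors.card * κ ^ (A / g).primeFactors.card) ∧
    (∀ γ : ℝ, 1 / 3 < γ → ∀ A g : ℕ, g ∣ A → Nat.Coprime g (A / g) → (A : ℝ) ^ γ ≤ g →
      ∃ N : ℕ, (Triangles A).encard = N ∧
        (N : ℝ) ≤ 7 / (γ - 1 / 3) ^ 2 * 4 ^ g.primeFactors.card) ∧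
    ∃ C : ℝ, ∀ A : ℕ, 0 < A →
      ∃ N : ℕ, (Triangles A).encard = N ∧ (N : ℝ) ≤ C * 1.38 ^ A.primeFactors.card := by
  have hN : ∀ A : ℕ, (Triangles A).encard = ((Triangles A).ncard : ℕ∞) := fun A =>
    (Set.Finite.cast_ncard_eq (Pool.Agent.H99.PT.gen_finite A)).symm
  refine ⟨?_, ?_, ?_⟩
  · intro γ x κ hγ hx0 hx1 h hκ
    obtain ⟨C, _, hC⟩ := Pool.Agent.H83.MR.mr_main γ x κ hγ hx0 hx1 h hκ
    exact ⟨C, fun A g hA hg hc hgA => ⟨(Triangles A).ncard, hN A, hC A g hA hg hc hgA⟩⟩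
  · intro γ hγ A g hg hc hgA
    have h1 : 1 / 3 + (γ - 1 / 3) = γ := by ring
    exact ⟨(Triangles A).ncard, hN A, Pool.Agent.H99.PT.main A g (γ - 1 / 3) (by linarith) hg hc
      (by rw [h1]; exact hgA)⟩
  · obtain ⟨C, _, hC⟩ := Pool.Agent.H83.MR.mr_main 0 (31 / 200) 1.38 (by norm_num) (by norm_num)
      (by norm_num) (by norm_num) Pool.Agent.H83.MR.num_lt
    refine ⟨C, fun A hA => ⟨(Triangles A).ncard, hN A, ?_⟩⟩
    have h1 : ((Triangles A).ncard : ℝ) ≤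
        C * 4 ^ (1 : ℕ).primeFactors.card * 1.38 ^ (A / 1).primeFactors.card :=
      hC A 1 hA (one_dvd A) (Nat.coprime_one_left _) (by simp)
    simpa using h1

end Pool.Agent.Results.MP_912b3a_nt.OmegaBound
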