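import Pool.Agent.H83.UQ.Fam
import Pool.Agent.H83.UQ.Shq

/-!
# Primitive Pythagorean triangles whose area is exactly divisible by a large prime power

If a prime power `q ≥ 3 A ^ (2/7)` exactly divides `A`, then there is at most one primitive
Pythagorean triangle of area `A`. For a divisor `q` of one of `m`, `n`, `m - n`, `m + n` the exponent
and the asymptotic constant, `q ^ 7 ≥ (12 + ε) A ^ 2`, are the best possible ones.
-/

namespace Pool.Agent.Results.MP_912b3a_nt.UniquePrime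

/-- The primitive Pythagorean triangles of area `A`, as the set of their generator pairs
`(m, n)`: `m > n > 0`, coprime, of opposite parity, with `m n (m² - n²) = A`. -/
def Triangles (A : ℕ) : Set (ℕ × ℕ) :=
  {v | 0 < v.2 ∧ v.2 < v.1 ∧ Nat.Coprime v.1 v.2 ∧ ¬ v.1 ≡ v.2 [MOD 2] ∧
    v.1 * v.2 * (v.1 ^ 2 - v.2 ^ 2) = A}

/-- The triangles of area `A` for which `q` divides one of `m`, `n`, `m - n`, `m + n`. -/
def Special (A q : ℕ) : Set (ℕ × ℕ) :=
  {v | v ∈ Triangles A ∧ (q ∣ v.1 ∨ q ∣ v.2 ∨ q ∣ v.1 - v.2 ∨ q ∣ v.1 + v.2)}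

/-- 1. If a prime power `q ≥ 3 A ^ (2/7)` exactly divides `A`, then there is at most one primitive
Pythagorean triangle of area `A`.

2. If `q ^ 7 > 1215 A ^ 2`, `q` any positive integer, then there is at most one primitive
Pythagorean triangle of area `A` such that `q` divides one of `m`, `n`, `m - n`, `m + n`.

3. For every `ε > 0` there is `A₀` such that for `A ≥ A₀` and `q ^ 7 ≥ (12 + ε) A ^ 2` there is at
most one triangle as in 2; and at most one triangle of area `A` at all, if `q` is a prime power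
which exactly divides `A`.

4. For infinitely many `A` there is a divisor `q` of `A` with `gcd (q, A / q) = 1` and
`q ^ 7 > 12 A ^ 2` and with at least two triangles as in 2. -/
theorem result :
    (∀ A q : ℕ, IsPrimePow q → q ∣ A → Nat.Coprime q (A / q) → 3 * (A : ℝ) ^ (2 / 7 : ℝ) ≤ q →
      (Triangles A).encard ≤ 1) ∧
    (∀ A q : ℕ, 1215 * A ^ 2 < q ^ 7 → (Special A q).encard ≤ 1) ∧
    (∀ ε : ℝ, 0 < ε → ∃ A₀ : ℕ, ∀ A q : ℕ, A₀ ≤ A → (12 + ε) * (A : ℝ) ^ 2 ≤ (q : ℝ) ^ 7 →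
      (Special A q).encard ≤ 1 ∧
      (IsPrimePow q → q ∣ A → Nat.Coprime q (A / q) → (Triangles A).encard ≤ 1)) ∧
    ∀ A₀ : ℕ, ∃ A q : ℕ, A₀ < A ∧ q ∣ A ∧ Nat.Coprime q (A / q) ∧ 12 * A ^ 2 < q ^ 7 ∧
      2 ≤ (Special A q).encard := by
  have hp : ∀ v : ℕ × ℕ, ∀ q : ℕ, (q ∣ v.1 ∨ q ∣ v.2 ∨ q ∣ v.1 - v.2 ∨ q ∣ v.1 + v.2) ↔
      ∃ i, q ∣ Pool.Agent.H99.PT.part v i := by
    intro v q
    constructor
    · rintro (h | h | h | h)
      · exact ⟨0, h⟩
      · exact ⟨1, h⟩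
      · exact ⟨2, h⟩
      · exact ⟨3, h⟩
    · rintro ⟨i, h⟩
      fin_cases i
      · exact Or.inl h
      · exact Or.inr (Or.inl h)
      · exact Or.inr (Or.inr (Or.inl h))
      · exact Or.inr (Or.inr (Or.inr h))
  refine ⟨?_, ?_, ?_, ?_⟩
  · intro A q hq hqA hc hbig
    rw [Set.encard_le_one_iff]
    intro v w hv hw
    have hA : 0 < A := Pool.Agent.H99.PT.area_pos hv
    obtain ⟨i, hi⟩ := Pool.Agent.H83.UQ.dvd_part hv hq hqA hc
    obtain ⟨j, hj⟩ := Pool.Agent.H83.UQ.dvd_part hw hq hqA hc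
    exact Pool.Agent.H83.UQ.unique (Pool.Agent.H83.UQ.big_of hA hbig) hv hw hi hj
  · intro A q hbig
    rw [Set.encard_le_one_iff]
    rintro v w ⟨hv, hv'⟩ ⟨hw, hw'⟩
    obtain ⟨i, hi⟩ := (hp v q).mp hv'
    obtain ⟨j, hj⟩ := (hp w q).mp hw'
    exact Pool.Agent.H83.UQ.unique hbig hv hw hi hj
  · intro ε hε
    obtain ⟨A₀, h⟩ := Pool.Agent.H83.UQ.sharp ε hε
    refine ⟨A₀, fun A q hA hbig => ⟨?_, ?_⟩⟩
    · rw [Set.encard_le_one_iff]
      rintro v w ⟨hv, hv'⟩ ⟨hw, hw'⟩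
      obtain ⟨i, hi⟩ := (hp v q).mp hv'
      obtain ⟨j, hj⟩ := (hp w q).mp hw'
      exact h A q hA hbig v w hv hw i j hi hj
    · intro hq hqA hc
      rw [Set.encard_le_one_iff]
      intro v w hv hw
      obtain ⟨i, hi⟩ := Pool.Agent.H83.UQ.dvd_part hv hq hqA hc
      obtain ⟨j, hj⟩ := Pool.Agent.H83.UQ.dvd_part hw hq hqA hc
      exact h A q hA hbig v w hv hw i j hi hj
  · intro A₀
    have hy : 0 < A₀ + 1 := Nat.succ_pos _
    have hq : 0 < Pool.Agent.H83.UQ.fq (A₀ + 1) := Nat.succ_pos _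
    have hlt := Pool.Agent.H83.UQ.fam_large hy
    refine ⟨Pool.Agent.H83.UQ.fq (A₀ + 1) * Pool.Agent.H83.UQ.fb (A₀ + 1),
      Pool.Agent.H83.UQ.fq (A₀ + 1), by omega, Dvd.intro _ rfl, ?_,
      Pool.Agent.H83.UQ.fam_big _, ?_⟩
    · rw [Nat.mul_div_cancel_left _ hq]
      exact Pool.Agent.H83.UQ.fam_cop hy
    · rw [← Set.encard_pair (Pool.Agent.H83.UQ.fam_ne hy)]
      apply Set.encard_le_encard
      rintro v (rfl | rfl)
      · refine ⟨Pool.Agent.H83.UQ.gen_one hy, (hp _ _).mpr ⟨3, ?_⟩⟩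
        rw [Pool.Agent.H83.UQ.part_one]
      · refine ⟨Pool.Agent.H83.UQ.gen_two hy, (hp _ _).mpr ⟨2, ?_⟩⟩
        rw [Pool.Agent.H83.UQ.part_two]

end Pool.Agent.Results.MP_912b3a_nt.UniquePrime
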